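import Mathlib

/-!
# The Pell sequence `(2+√3)^(12 n) = x + 24 √3 y`
-/

namespace H76ES

/-- `x_n + y_n √1728 = (3650401 + 87815 √1728)^n` -/
def pell : ℕ → ℤ × ℤ
  | 0 => (1, 0)
  | n + 1 => (3650401 * (pell n).1 + 1728 * 87815 * (pell n).2,
      87815 * (pell n).1 + 3650401 * (pell n).2)

theorem pell_succ (n : ℕ) : pell (n + 1) = (3650401 * (pell n).1 + 1728 * 87815 * (pell n).2,
    87815 * (pell n).1 + 3650401 * (pell n).2) := rfl

theorem pell_norm (n : ℕ) : (pell n).1 ^ 2 - 1728 * (pell n).2 ^ 2 = 1 := by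
  induction n with
  | zero => simp [pell]
  | succ n ih =>
    rw [pell_succ]
    dsimp only
    linear_combination ih

theorem pell_pos (n : ℕ) : 1 ≤ (pell n).1 ∧ 0 ≤ (pell n).2 := by
  induction n with
  | zero => simp [pell]
  | succ n ih =>
    rw [pell_succ]
    dsimp only
    constructor <;> linarith [ih.1, ih.2]

theorem pell_big (n : ℕ) : 3650401 ≤ (pell (n + 1)).1 := by
  rw [pell_succ]
  dsimp only
  linarith [(pell_pos n).1, (pell_pos n).2]

/-- the sequence modulo 44 -/
def pellz : ℕ → ZMod 44 × ZMod 44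
  | 0 => (1, 0)
  | n + 1 => (29 * (pellz n).1 + 12 * 35 * (pellz n).2, 35 * (pellz n).1 + 29 * (pellz n).2)

theorem pellz_succ (n : ℕ) : pellz (n + 1) =
    (29 * (pellz n).1 + 12 * 35 * (pellz n).2, 35 * (pellz n).1 + 29 * (pellz n).2) := rfl

theorem pell_cast (n : ℕ) : (((pell n).1 : ZMod 44), ((pell n).2 : ZMod 44)) = pellz n := by
  induction n with
  | zero => simp [pell, pellz]
  | succ n ih =>
    rw [pellz_succ, ← ih, pell_succ]
    dsimp only
    push_cast
    have h1 : (3650401 : ZMod 44) = 29 := by decide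
    have h2 : (151744320 : ZMod 44) = 12 * 35 := by decide
    have h3 : (87815 : ZMod 44) = 35 := by decide
    rw [h1, h2, h3]

theorem pellz_add (n : ℕ) : pellz (n + 20) = pellz n := by
  induction n with
  | zero => decide
  | succ n ih =>
    have : n + 1 + 20 = (n + 20) + 1 := by ring
    rw [this, pellz_succ, ih, ← pellz_succ]

theorem pellz_13 (i : ℕ) : pellz (13 + 20 * i) = (9, 27) := by
  induction i with
  | zero => decide
  | succ n ih =>
    have : 13 + 20 * (n + 1) = (13 + 20 * n) + 20 := by ring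
    rw [this, pellz_add, ih]

theorem pell_mod (i : ℕ) : (44 : ℤ) ∣ (pell (13 + 20 * i)).1 - 9 ∧
    (44 : ℤ) ∣ (pell (13 + 20 * i)).2 - 27 := by
  have h := (pell_cast (13 + 20 * i)).trans (pellz_13 i)
  have h1 := (Prod.ext_iff.1 h).1
  have h2 := (Prod.ext_iff.1 h).2
  dsimp only at h1 h2
  constructor
  · have := (ZMod.intCast_zmod_eq_zero_iff_dvd ((pell (13 + 20 * i)).1 - 9) 44).1
      (by push_cast; rw [h1]; decide)
    exact_mod_cast this
  · have := (ZMod.intCast_zmod_eq_zero_iff_dvd ((pell (13 + 20 * i)).2 - 27) 44).1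
      (by push_cast; rw [h2]; decide)
    exact_mod_cast this

/-- `√1728` -/
noncomputable def th : ℝ := Real.sqrt 1728

theorem th_sq : th ^ 2 = 1728 := Real.sq_sqrt (by norm_num)

theorem th_pos : 0 < th := Real.sqrt_pos.2 (by norm_num)

/-- `α` -/
noncomputable def al : ℝ := 3650401 + 87815 * th

theorem al_inv : al * (3650401 - 87815 * th) = 1 := by
  rw [al]
  linear_combination (-(87815 : ℝ) ^ 2) * th_sq

theorem al_big : 1000000 ≤ al := by
  rw [al]
  have := th_pos
  linarith

theorem pell_real (n : ℕ) : ((pell n).1 : ℝ) + (pell n).2 * th = al ^ n := by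
  induction n with
  | zero => simp [pell]
  | succ n ih =>
    rw [pow_succ, ← ih, pell_succ, al]
    push_cast
    linear_combination (-(87815 : ℝ) * (pell n).2) * th_sq

theorem pell_real' (n : ℕ) : (((pell n).1 : ℝ) - (pell n).2 * th) * al ^ n = 1 := by
  rw [← pell_real n]
  have h := pell_norm n
  have h' : ((pell n).1 : ℝ) ^ 2 - 1728 * ((pell n).2 : ℝ) ^ 2 = 1 := by exact_mod_cast h
  linear_combination h' - ((pell n).2 : ℝ) ^ 2 * th_sq

theorem pell_two (n : ℕ) : 2 * ((pell n).1 : ℝ) = al ^ n + (al ^ n)⁻¹ := by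
  have h0 : al ^ n ≠ 0 := pow_ne_zero _ (by have := al_big; linarith)
  have h1 : ((pell n).1 : ℝ) - (pell n).2 * th = (al ^ n)⁻¹ := by
    rw [eq_comm]
    exact inv_eq_of_mul_eq_one_left (pell_real' n)
  rw [← h1, ← pell_real n]
  ring

end H76ES
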