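import Mathlib

/-!
# A two-generator family of Weierstrass curves with unit discriminant, and point counts mod 11
-/

namespace H76ES

/-- `11 + 1 - #E(F_11)` for the reduction of the Weierstrass curve `W` along `φ`:
`11` minus the number of affine points. -/
def tr {R : Type} [CommRing R] (W : WeierstrassCurve R) (φ : R →+* ZMod 11) : ℤ :=
  11 - ((Finset.univ.filter fun P : ZMod 11 × ZMod 11 =>
    P.2 ^ 2 + φ W.a₁ * P.1 * P.2 + φ W.a₃ * P.2
      = P.1 ^ 3 + φ W.a₂ * P.1 ^ 2 + φ W.a₄ * P.1 + φ W.a₆).card : ℤ)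

/-- the curve `y² + β² x y = x³ - β (β - 1) κ x² + 36 x + β`. -/
def crv {R : Type} [CommRing R] (β κ : R) : WeierstrassCurve R :=
  ⟨β ^ 2, - β * (β - 1) * κ, 0, 36, β⟩

theorem crv_disc {R : Type} [CommRing R] (β κ : R) (h : 4 * κ = β ^ 2 + β + 1) :
    (crv β κ).Δ = - (β ^ 2 - 1728) ^ 2 := by
  have hb2 : (crv β κ).b₂ = β := by
    simp only [crv, WeierstrassCurve.b₂]
    linear_combination (- β * (β - 1)) * h
  have hb4 : (crv β κ).b₄ = 72 := by
    simp only [crv, WeierstrassCurve.b₄]; ring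
  have hb6 : (crv β κ).b₆ = 4 * β := by
    simp only [crv, WeierstrassCurve.b₆]; ring
  have hb8 : (crv β κ).b₈ = β ^ 2 - 1296 := by
    simp only [crv, WeierstrassCurve.b₈]
    linear_combination (- β ^ 2 * (β - 1)) * h
  rw [WeierstrassCurve.Δ, hb2, hb4, hb6, hb8]
  ring

/-- if `β² = sβ - m` and `(m+1728)² - 1728 s² = 1` then the discriminant is a unit -/
theorem crv_unit {R : Type} [CommRing R] (β κ : R) (s m u v : ℤ)
    (hβ : β ^ 2 = s * β - m) (hs : s + 1 = 4 * u) (hm : m - 1 = 4 * v)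
    (hκ : κ = u * β - v) (hN : (m + 1728) ^ 2 - 1728 * s ^ 2 = 1) :
    IsUnit (crv β κ).Δ := by
  have hs' : (s : R) + 1 = 4 * u := by exact_mod_cast congrArg (Int.cast : ℤ → R) hs
  have hm' : (m : R) - 1 = 4 * v := by exact_mod_cast congrArg (Int.cast : ℤ → R) hm
  have hN' : ((m : R) + 1728) ^ 2 - 1728 * (s : R) ^ 2 = 1 := by
    exact_mod_cast congrArg (Int.cast : ℤ → R) hN
  have h4 : 4 * κ = β ^ 2 + β + 1 := by
    rw [hκ, hβ]
    linear_combination (-β) * hs' + hm'
  rw [crv_disc β κ h4]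
  have hu : (β ^ 2 - 1728) * (((s : R) - β) ^ 2 - 1728) = 1 := by
    have e1 : β * ((s : R) - β) = m := by
      linear_combination -hβ
    have e2 : β ^ 2 + ((s : R) - β) ^ 2 = s ^ 2 - 2 * m := by
      linear_combination -2 * e1
    calc (β ^ 2 - 1728) * (((s : R) - β) ^ 2 - 1728)
        = (β * ((s : R) - β)) ^ 2 - 1728 * (β ^ 2 + ((s : R) - β) ^ 2) + 1728 ^ 2 := by ring
      _ = (m : R) ^ 2 - 1728 * (s ^ 2 - 2 * m) + 1728 ^ 2 := by rw [e1, e2]
      _ = 1 := by linear_combination hN'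
  have : IsUnit (β ^ 2 - 1728) := IsUnit.of_mul_eq_one _ hu
  exact (this.pow 2).neg

theorem four_inv (a : ZMod 11) (b : ZMod 11) (h : 4 * a = b) : a = 3 * b := by
  rw [← h]
  have : (3 : ZMod 11) * (4 * a) = 12 * a := by ring
  rw [this]
  have h12 : (12 : ZMod 11) = 1 := by decide
  rw [h12, one_mul]

theorem tr7 {R : Type} [CommRing R] (β κ : R) (h : 4 * κ = β ^ 2 + β + 1)
    (φ : R →+* ZMod 11) (hφ : φ β = 7) : tr (crv β κ) φ = 2 := by
  have hk : φ κ = 6 := by
    have := congrArg φ h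
    simp only [map_mul, map_add, map_pow, map_one, map_ofNat, hφ] at this
    rw [four_inv _ _ this]
    decide
  have h1 : φ (crv β κ).a₁ = 5 := by
    simp only [crv, map_pow, hφ]; decide
  have h2 : φ (crv β κ).a₂ = 1 := by
    simp only [crv, map_mul, map_neg, map_sub, map_one, hφ, hk]; decide
  have h3 : φ (crv β κ).a₃ = 0 := by
    simp only [crv, map_zero]
  have h4 : φ (crv β κ).a₄ = 3 := by
    simp only [crv, map_ofNat]; decide
  have h6 : φ (crv β κ).a₆ = 7 := by
    simp only [crv, hφ]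
  rw [tr, h1, h2, h3, h4, h6]
  decide +kernel

theorem tr9 {R : Type} [CommRing R] (β κ : R) (h : 4 * κ = β ^ 2 + β + 1)
    (φ : R →+* ZMod 11) (hφ : φ β = 9) : tr (crv β κ) φ = 4 := by
  have hk : φ κ = 9 := by
    have := congrArg φ h
    simp only [map_mul, map_add, map_pow, map_one, map_ofNat, hφ] at this
    rw [four_inv _ _ this]
    decide
  have h1 : φ (crv β κ).a₁ = 4 := by
    simp only [crv, map_pow, hφ]; decide
  have h2 : φ (crv β κ).a₂ = 1 := by
    simp only [crv, map_mul, map_neg, map_sub, map_one, hφ, hk]; decide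
  have h3 : φ (crv β κ).a₃ = 0 := by
    simp only [crv, map_zero]
  have h4 : φ (crv β κ).a₄ = 3 := by
    simp only [crv, map_ofNat]; decide
  have h6 : φ (crv β κ).a₆ = 9 := by
    simp only [crv, hφ]
  rw [tr, h1, h2, h3, h4, h6]
  decide +kernel

end H76ES
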