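import Mathlib

/-!
# Ring homomorphisms from the integers of a quadratic field to `F_p`
-/

namespace H76ES

open NumberField Polynomial

theorem nonsq {d : ℕ} (hd : Squarefree d) (h1 : 1 < d) (q : ℚ) : q ^ 2 ≠ (d : ℚ) := by
  intro h
  have hs : IsSquare (d : ℚ) := ⟨q, by rw [← h]; ring⟩
  rw [Rat.isSquare_natCast_iff] at hs
  obtain ⟨k, hk⟩ := hs
  have hu : IsUnit k := hd k ⟨1, by rw [mul_one]; exact hk⟩
  rw [Nat.isUnit_iff] at hu
  rw [hu] at hk
  omega

section
variable (K : Type) [Field K] [NumberField K]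

theorem spans (hK : Module.finrank ℚ K = 2) {d : ℕ} (hd : Squarefree d) (h1 : 1 < d)
    (r : K) (hr : r ^ 2 = (d : K)) (z : K) :
    ∃ a c : ℚ, z = (a : K) + (c : K) * r := by
  have hli : LinearIndependent ℚ ![(1 : K), r] := by
    rw [LinearIndependent.pair_iff]
    intro s t h
    rw [Algebra.smul_def, Algebra.smul_def, mul_one] at h
    have ht : t = 0 := by
      by_contra ht
      apply nonsq hd h1 (- s / t)
      have ht' : (algebraMap ℚ K t) ≠ 0 := by
        intro h0
        exact ht ((map_eq_zero (algebraMap ℚ K)).1 h0)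
      have hr' : r = algebraMap ℚ K (- s / t) := by
        rw [map_div₀, map_neg, eq_div_iff ht']
        linear_combination h
      have h2 : algebraMap ℚ K ((- s / t) ^ 2) = algebraMap ℚ K (d : ℚ) := by
        rw [map_pow, ← hr', hr, map_natCast]
      exact (algebraMap ℚ K).injective h2
    refine ⟨?_, ht⟩
    rw [ht, map_zero, zero_mul, add_zero] at h
    exact (map_eq_zero (algebraMap ℚ K)).1 h
  have htop : Submodule.span ℚ (Set.range ![(1 : K), r]) = ⊤ := by
    apply Submodule.eq_top_of_finrank_eq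
    rw [finrank_span_eq_card hli, hK]
    simp
  have hz : z ∈ Submodule.span ℚ (Set.range ![(1 : K), r]) := by
    rw [htop]; trivial
  rw [Matrix.range_cons, Matrix.range_cons, Matrix.range_empty, Set.union_empty] at hz
  have hz' : z ∈ Submodule.span ℚ ({(1 : K), r} : Set K) := hz
  rw [Submodule.mem_span_pair] at hz'
  obtain ⟨a, c, hac⟩ := hz'
  refine ⟨a, c, ?_⟩
  rw [← hac, Algebra.smul_def, Algebra.smul_def, mul_one]
  rfl

theorem trace_r {d : ℕ} (hd : Squarefree d) (h1 : 1 < d)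
    (r : K) (hr : r ^ 2 = (d : K)) : Algebra.trace ℚ K r = 0 := by
  have hirr : Irreducible (X ^ 2 - C (d : ℚ) : ℚ[X]) :=
    X_pow_sub_C_irreducible_of_prime Nat.prime_two (nonsq hd h1)
  have hmin : minpoly ℚ r = X ^ 2 - C (d : ℚ) := by
    symm
    apply minpoly.eq_of_irreducible_of_monic hirr
    · rw [map_sub, map_pow, aeval_X, aeval_C, hr, map_natCast, sub_self]
    · exact monic_X_pow_sub_C _ two_ne_zero
  rw [trace_eq_finrank_mul_minpoly_nextCoeff, hmin]
  have : (X ^ 2 - C (d : ℚ) : ℚ[X]).nextCoeff = 0 := by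
    rw [nextCoeff, natDegree_X_pow_sub_C, if_neg two_ne_zero]
    simp [coeff_X_pow]
  rw [this, neg_zero, mul_zero]

theorem int_of_integral (x : ℚ) (h : IsIntegral ℤ x) : ∃ n : ℤ, (n : ℚ) = x := by
  obtain ⟨n, hn⟩ := IsIntegrallyClosed.isIntegral_iff.1 h
  exact ⟨n, by rw [← hn]; rfl⟩

/-- the discriminant times an integer lies in `ℤ + ℤβ` -/
theorem disc_mul (hK : Module.finrank ℚ K = 2) {d : ℕ} (hd : Squarefree d) (h1 : 1 < d)
    (r : K) (hr : r ^ 2 = (d : K)) (s m w : ℤ) (hD : s ^ 2 - 4 * m = d * w ^ 2)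
    (β : K) (hβ : 2 * β = s + w * r) (hβi : IsIntegral ℤ β) (z : K) (hz : IsIntegral ℤ z) :
    ∃ x y : ℤ, ((s ^ 2 - 4 * m : ℤ) : K) * z = x + y * β := by
  obtain ⟨a, c, hac⟩ := spans K hK hd h1 r hr z
  have htr0 : Algebra.trace ℚ K r = 0 := trace_r K hd h1 r hr
  have htrq : ∀ q : ℚ, Algebra.trace ℚ K (q : K) = 2 * q := by
    intro q
    have := Algebra.trace_algebraMap (R := ℚ) (S := K) q
    rw [hK] at this
    have h2 : algebraMap ℚ K q = (q : K) := rfl
    rw [h2] at this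
    rw [this]
    simp
  have htrqr : ∀ q : ℚ, Algebra.trace ℚ K ((q : K) * r) = 0 := by
    intro q
    have h2 : (q : K) * r = q • r := by rw [Algebra.smul_def]; rfl
    rw [h2, map_smul, htr0, smul_zero]
  have hT1 : Algebra.trace ℚ K z = 2 * a := by
    rw [hac, map_add, htrq, htrqr, add_zero]
  have hzb : z * β = ((a * s + c * d * w) / 2 : ℚ) + ((a * w + c * s) / 2 : ℚ) * r := by
    have h2 : (2 : K) ≠ 0 := two_ne_zero
    apply mul_left_cancel₀ h2
    calc 2 * (z * β) = z * (2 * β) := by ring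
      _ = ((a : K) + c * r) * (s + w * r) := by rw [hβ, hac]
      _ = (a : K) * s + (c : K) * w * r ^ 2 + (a * w + c * s) * r := by ring
      _ = (a : K) * s + (c : K) * w * d + (a * w + c * s) * r := by rw [hr]
      _ = 2 * ((((a * s + c * d * w) / 2 : ℚ) : K) + ((a * w + c * s) / 2 : ℚ) * r) := by
        push_cast; ring
  have hT2 : Algebra.trace ℚ K (z * β) = a * s + c * d * w := by
    rw [hzb, map_add, htrq, htrqr, add_zero]; ring
  obtain ⟨t1, ht1⟩ := int_of_integral _ (Algebra.isIntegral_trace (F := K) (L := ℚ) hz)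
  obtain ⟨t2, ht2⟩ := int_of_integral _ (Algebra.isIntegral_trace (F := K) (L := ℚ) (hz.mul hβi))
  rw [hT1] at ht1
  rw [hT2] at ht2
  refine ⟨(s ^ 2 - 2 * m) * t1 - s * t2, 2 * t2 - s * t1, ?_⟩
  have e1 : (t1 : K) = 2 * a := by
    have := congrArg (Rat.cast : ℚ → K) ht1
    push_cast at this
    exact this
  have e2 : (t2 : K) = a * s + c * d * w := by
    have := congrArg (Rat.cast : ℚ → K) ht2
    push_cast at this
    exact this
  have e3 : (s : K) ^ 2 - 4 * m = d * w ^ 2 := by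
    exact_mod_cast congrArg (Int.cast : ℤ → K) hD
  have h2 : (2 : K) ≠ 0 := two_ne_zero
  apply mul_left_cancel₀ h2
  have h3 : (2 : K) * ((((s ^ 2 - 2 * m) * t1 - s * t2 : ℤ) : K) + ((2 * t2 - s * t1 : ℤ) : K) * β)
      = 2 * ((s ^ 2 - 2 * m) * t1 - s * t2) + (2 * t2 - s * t1) * (2 * β) := by
    push_cast; ring
  rw [h3, hβ, e1, e2, hac]
  push_cast
  linear_combination (2 * (c : K) * r - 0) * e3 + (0 : K) * hr
end

/-- a ring in which `D z` always is a unique integer combination of `1` and `B` maps to every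
field in which `D` is invertible and the quadratic relation of `B` has a root -/
theorem hom_of {R : Type} [CommRing R] (B : R) (s m D : ℤ) (hB : B ^ 2 = s * B - m)
    (hx : ∀ z : R, ∃ x y : ℤ, (D : R) * z = x + y * B)
    (hu : ∀ x y : ℤ, (x : R) + y * B = 0 → x = 0 ∧ y = 0)
    {F : Type} [Field F] (b : F) (hb : b ^ 2 = s * b - m) (hD : (D : F) ≠ 0) :
    ∃ φ : R →+* F, φ B = b := by
  choose x y hxy using hx
  have key : ∀ (x1 y1 x2 y2 : ℤ), (x1 : R) + y1 * B = x2 + y2 * B → x1 = x2 ∧ y1 = y2 := by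
    intro x1 y1 x2 y2 h
    have := hu (x1 - x2) (y1 - y2) (by push_cast; linear_combination h)
    omega
  have h1 : x 1 = D ∧ y 1 = 0 := by
    apply key
    rw [← hxy 1]; push_cast; ring
  have h0 : x 0 = 0 ∧ y 0 = 0 := by
    apply key
    rw [← hxy 0]; push_cast; ring
  have hB1 : x B = 0 ∧ y B = D := by
    apply key
    rw [← hxy B]; push_cast; ring
  have hadd : ∀ z1 z2, x (z1 + z2) = x z1 + x z2 ∧ y (z1 + z2) = y z1 + y z2 := by
    intro z1 z2
    apply key
    rw [← hxy (z1 + z2)]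
    push_cast
    linear_combination hxy z1 + hxy z2
  have hmul : ∀ z1 z2, D * x (z1 * z2) = x z1 * x z2 - m * (y z1 * y z2)
      ∧ D * y (z1 * z2) = x z1 * y z2 + y z1 * x z2 + s * (y z1 * y z2) := by
    intro z1 z2
    apply key
    push_cast
    have e1 := hxy z1
    have e2 := hxy z2
    have e3 := hxy (z1 * z2)
    have e4 : ((D : R) * z1) * ((D : R) * z2) = (x z1 + y z1 * B) * (x z2 + y z2 * B) := by
      rw [e1, e2]
    linear_combination (-(D : R)) * e3 + e4 + ((y z1 : R) * y z2) * hB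
  refine ⟨{ toFun := fun z => (D : F)⁻¹ * ((x z : F) + y z * b)
            map_one' := ?_
            map_mul' := ?_
            map_zero' := ?_
            map_add' := ?_ }, ?_⟩
  · rw [h1.1, h1.2, Int.cast_zero, zero_mul, add_zero, inv_mul_cancel₀ hD]
  · intro z1 z2
    have f1 : (D : F) * x (z1 * z2) = x z1 * x z2 - m * (y z1 * y z2) := by
      exact_mod_cast congrArg (Int.cast : ℤ → F) (hmul z1 z2).1
    have f2 : (D : F) * y (z1 * z2) = x z1 * y z2 + y z1 * x z2 + s * (y z1 * y z2) := by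
      exact_mod_cast congrArg (Int.cast : ℤ → F) (hmul z1 z2).2
    have f3 : (D : F) * ((x (z1 * z2) : F) + y (z1 * z2) * b)
        = ((x z1 : F) + y z1 * b) * (x z2 + y z2 * b) := by
      linear_combination f1 + b * f2 - ((y z1 : F) * y z2) * hb
    have hDD : (D : F) * (D : F)⁻¹ = 1 := mul_inv_cancel₀ hD
    calc (D : F)⁻¹ * ((x (z1 * z2) : F) + y (z1 * z2) * b)
        = (D : F)⁻¹ * (((D : F) * (D : F)⁻¹) * ((x (z1 * z2) : F) + y (z1 * z2) * b)) := by
          rw [hDD, one_mul]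
      _ = (D : F)⁻¹ * (D : F)⁻¹ * ((D : F) * ((x (z1 * z2) : F) + y (z1 * z2) * b)) := by ring
      _ = (D : F)⁻¹ * ((x z1 : F) + y z1 * b) * ((D : F)⁻¹ * ((x z2 : F) + y z2 * b)) := by
          rw [f3]; ring
  · rw [h0.1, h0.2, Int.cast_zero, zero_mul, add_zero, mul_zero]
  · intro z1 z2
    rw [(hadd z1 z2).1, (hadd z1 z2).2]
    push_cast
    ring
  · show (D : F)⁻¹ * ((x B : F) + y B * b) = b
    rw [hB1.1, hB1.2, Int.cast_zero, zero_add, ← mul_assoc, inv_mul_cancel₀ hD, one_mul]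

theorem exists_hom (K : Type) [Field K] [NumberField K] (hK : Module.finrank ℚ K = 2) {d : ℕ}
    (hd : Squarefree d) (h1 : 1 < d)
    (r : K) (hr : r ^ 2 = (d : K)) (s m w : ℤ) (hD : s ^ 2 - 4 * m = d * w ^ 2) (hw : w ≠ 0)
    (B : 𝓞 K) (hβ : 2 * (B : K) = s + w * r) (b : ZMod 11)
    (hb : b ^ 2 = s * b - m) (hDF : ((s ^ 2 - 4 * m : ℤ) : ZMod 11) ≠ 0) :
    ∃ φ : 𝓞 K →+* ZMod 11, φ B = b := by
  have : Fact (Nat.Prime 11) := ⟨by norm_num⟩
  have h2 : (2 : K) ≠ 0 := two_ne_zero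
  have hDK : (s : K) ^ 2 - 4 * m = d * w ^ 2 := by
    exact_mod_cast congrArg (Int.cast : ℤ → K) hD
  have hBK : (B : K) ^ 2 = s * B - m := by
    have h4 : (4 : K) ≠ 0 := by norm_num
    apply mul_left_cancel₀ h4
    have : (4 : K) * (B : K) ^ 2 = (2 * (B : K)) ^ 2 := by ring
    rw [this]
    have h5 : (4 : K) * (s * B - m) = 2 * s * (2 * B) - 4 * m := by ring
    rw [h5, hβ]
    linear_combination (w : K) ^ 2 * hr - hDK
  have hB : B ^ 2 = s * B - m := by
    apply RingOfIntegers.ext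
    push_cast
    exact hBK
  apply hom_of B s m (s ^ 2 - 4 * m) hB
  · intro z
    obtain ⟨x, y, hxy⟩ := disc_mul K hK hd h1 r hr s m w hD (B : K) hβ B.isIntegral_coe (z : K)
      z.isIntegral_coe
    refine ⟨x, y, ?_⟩
    apply RingOfIntegers.ext
    push_cast at hxy ⊢
    exact hxy
  · intro x y h
    have hK' : (x : K) + y * B = 0 := by
      have := congrArg (fun t : 𝓞 K => (t : K)) h
      push_cast at this
      exact this
    have h3 : ((2 * x + y * s : ℤ) : K) + ((y * w : ℤ) : K) * r = 0 := by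
      push_cast
      linear_combination 2 * hK' - (y : K) * hβ
    by_cases hy : y = 0
    · subst hy
      refine ⟨?_, rfl⟩
      rw [Int.cast_zero, zero_mul, add_zero] at hK'
      exact_mod_cast hK'
    · exfalso
      have hyw : y * w ≠ 0 := mul_ne_zero hy hw
      apply nonsq hd h1 (-(2 * x + y * s : ℤ) / (y * w : ℤ))
      have hywK : ((y * w : ℤ) : K) ≠ 0 := by exact_mod_cast hyw
      have hr' : r = (((-(2 * x + y * s : ℤ) / (y * w : ℤ) : ℚ)) : K) := by
        have : (((-(2 * x + y * s : ℤ) / (y * w : ℤ) : ℚ)) : K)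
            = - ((2 * x + y * s : ℤ) : K) / ((y * w : ℤ) : K) := by
          rw [Rat.cast_div, Rat.cast_neg, Rat.cast_intCast, Rat.cast_intCast]
        rw [this, eq_div_iff hywK]
        linear_combination h3
      have h6 : (((-(2 * x + y * s : ℤ) / (y * w : ℤ) : ℚ) ^ 2 : ℚ) : K) = ((d : ℚ) : K) := by
        rw [Rat.cast_pow, ← hr', hr, Rat.cast_natCast]
      exact Rat.cast_injective h6
  · exact hb
  · exact hDF

end H76ES
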