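import Mathlib
import Pool.Agent.H76.ES.Curve
import Pool.Agent.H76.ES.Hom
import Pool.Agent.H76.ES.Inf

/-!
# The curve over the quadratic field
-/

namespace H76ES

open NumberField Polynomial

theorem isInt (K : Type) [Field K] [NumberField K] (s m : ℤ) (β : K)
    (h : β ^ 2 = s * β - m) : IsIntegral ℤ β := by
  refine ⟨X ^ 2 + (C (-s) * X + C m), ?_, ?_⟩
  · apply monic_X_pow_add
    exact lt_of_le_of_lt degree_linear_le (by norm_num)
  · rw [eval₂_add, eval₂_add, eval₂_mul, eval₂_pow, eval₂_X, eval₂_C, eval₂_C, h]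
    simp

theorem main (i a b : ℕ) (ha : Squarefree a) (h1 : 1 < a) (hD : disc i = a * (b : ℤ) ^ 2)
    (K : Type) [Field K] [NumberField K] (hK : Module.finrank ℚ K = 2)
    (r : K) (hr : r ^ 2 = (a : K)) :
    ∃ W : WeierstrassCurve (𝓞 K), IsUnit W.Δ ∧
      ∃ φ ψ : 𝓞 K →+* ZMod 11, tr W φ = 2 ∧ tr W ψ = 4 := by
  obtain ⟨s, hs⟩ : ∃ s, s = (pell (13 + 20 * i)).2 := ⟨_, rfl⟩
  obtain ⟨x, hx⟩ : ∃ x, x = (pell (13 + 20 * i)).1 := ⟨_, rfl⟩
  have hmod := pell_mod i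
  have hpos := disc_pos i
  have hnorm := pell_norm (13 + 20 * i)
  have hD' : s ^ 2 - 4 * (x - 1728) = a * (b : ℤ) ^ 2 := by rw [← hD, disc, hs, hx]
  rw [← hs, ← hx] at hmod
  rw [← hs, ← hx] at hnorm
  obtain ⟨⟨jx, hjx⟩, ⟨js, hjs⟩⟩ := hmod
  have hb : (b : ℤ) ≠ 0 := by
    intro h0
    rw [hD, h0] at hpos
    simp at hpos
  have h2 : (2 : K) ≠ 0 := two_ne_zero
  have hDK : (s : K) ^ 2 - 4 * (x - 1728) = a * (b : K) ^ 2 := by
    exact_mod_cast congrArg (Int.cast : ℤ → K) hD'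
  obtain ⟨β, hβ⟩ : ∃ β : K, 2 * β = s + b * r := ⟨(s + b * r) / 2, by field_simp⟩
  have hβ2 : β ^ 2 = s * β - ((x - 1728 : ℤ) : K) := by
    have h4 : (4 : K) ≠ 0 := by norm_num
    apply mul_left_cancel₀ h4
    have e1 : (4 : K) * β ^ 2 = (2 * β) ^ 2 := by ring
    have e2 : (4 : K) * (s * β - ((x - 1728 : ℤ) : K))
        = 2 * s * (2 * β) - 4 * ((x - 1728 : ℤ) : K) := by ring
    rw [e1, e2, hβ]
    push_cast
    linear_combination (b : K) ^ 2 * hr - hDK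
  have hint : IsIntegral ℤ β := isInt K s (x - 1728) β hβ2
  obtain ⟨B, hB⟩ : ∃ B : 𝓞 K, (B : K) = β := ⟨⟨β, hint⟩, rfl⟩
  have hB2 : B ^ 2 = (s : 𝓞 K) * B - ((x - 1728 : ℤ) : 𝓞 K) := by
    have hBB : (B : K) ^ 2 = s * (B : K) - ((x - 1728 : ℤ) : K) := by
      rw [hB]; exact hβ2
    apply RingOfIntegers.ext
    push_cast at hBB ⊢
    exact hBB
  have hs4 : s + 1 = 4 * (7 + 11 * js) := by linarith
  have hm4 : (x - 1728) - 1 = 4 * (-430 + 11 * jx) := by linarith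
  have h4κ : 4 * (((7 + 11 * js : ℤ) : 𝓞 K) * B - ((-430 + 11 * jx : ℤ) : 𝓞 K))
      = B ^ 2 + B + 1 := by
    have f1 : (s : 𝓞 K) + 1 = 4 * ((7 + 11 * js : ℤ) : 𝓞 K) := by
      exact_mod_cast congrArg (Int.cast : ℤ → 𝓞 K) hs4
    have f2 : ((x - 1728 : ℤ) : 𝓞 K) - 1 = 4 * ((-430 + 11 * jx : ℤ) : 𝓞 K) := by
      exact_mod_cast congrArg (Int.cast : ℤ → 𝓞 K) hm4
    linear_combination (-B) * f1 + f2 - hB2
  have hs11 : (s : ZMod 11) = 5 := by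
    have : s = 27 + 44 * js := by linarith
    rw [this]
    push_cast
    have e1 : (27 : ZMod 11) = 5 := by decide
    have e2 : (44 : ZMod 11) = 0 := by decide
    rw [e1, e2, zero_mul, add_zero]
  have hm11 : ((x - 1728 : ℤ) : ZMod 11) = 8 := by
    have : x - 1728 = -1719 + 44 * jx := by linarith
    rw [this]
    push_cast
    have e1 : (-1719 : ZMod 11) = 8 := by decide
    have e2 : (44 : ZMod 11) = 0 := by decide
    rw [e1, e2, zero_mul, add_zero]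
  have hD11 : ((s ^ 2 - 4 * (x - 1728) : ℤ) : ZMod 11) ≠ 0 := by
    have : ((s ^ 2 - 4 * (x - 1728) : ℤ) : ZMod 11)
        = (s : ZMod 11) ^ 2 - 4 * ((x - 1728 : ℤ) : ZMod 11) := by push_cast; ring
    rw [this, hs11, hm11]
    decide
  have hβ' : 2 * (B : K) = s + ((b : ℤ) : K) * r := by
    rw [hB, hβ]; push_cast; ring
  obtain ⟨φ, hφ⟩ := exists_hom K hK ha h1 r hr s (x - 1728) b hD' hb B hβ' 7
    (by rw [hs11, hm11]; decide) hD11
  obtain ⟨ψ, hψ⟩ := exists_hom K hK ha h1 r hr s (x - 1728) b hD' hb B hβ' 9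
    (by rw [hs11, hm11]; decide) hD11
  refine ⟨crv B (((7 + 11 * js : ℤ) : 𝓞 K) * B - ((-430 + 11 * jx : ℤ) : 𝓞 K)), ?_,
    φ, ψ, tr7 _ _ h4κ φ hφ, tr9 _ _ h4κ ψ hψ⟩
  exact crv_unit B _ s (x - 1728) (7 + 11 * js) (-430 + 11 * jx) hB2 hs4 hm4 rfl
    (by linear_combination hnorm)

end H76ES
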